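import Pool.Agent.S07321

/-!
# Type (ii) integral solutions of `A Aᵀ = n I + J`
-/

set_option autoImplicit false

namespace Pool.Agent.Results.MP_155e99_co.TypeTwoSolutions

/-- The number `v = n ^ 2 + n + 1` of points. -/
abbrev vv (n : ℕ) : ℕ := n ^ 2 + n + 1

/-- The Bruck-Ryser-Chowla condition for the parameters `(n ^ 2 + n + 1, n + 1, 1)`. -/
def BRC (n : ℕ) : Prop :=
  ∃ x y z : ℤ, (x ≠ 0 ∨ y ≠ 0 ∨ z ≠ 0) ∧
    x ^ 2 = (n : ℤ) * y ^ 2 + (-1 : ℤ) ^ ((vv n - 1) / 2) * z ^ 2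

/-- `A` is an integral solution of `A Aᵀ = n I + J` with nonnegative column sums. -/
def IsSolution (n : ℕ) (A : Matrix (Fin (vv n)) (Fin (vv n)) ℤ) : Prop :=
  (∀ r s, ∑ j, A r j * A s j = if r = s then (n : ℤ) + 1 else 1) ∧ ∀ j, 0 ≤ ∑ i, A i j

/-- The columns of `A` split as in type (ii): one column `j₀` has exactly one entry `0` and all
other entries `1`; the `n + 1` columns in `S` have `n + 1` entries `1` and `n ^ 2` entries `0`; all
other columns have sum `0`. -/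
def IsTypeTwo (n : ℕ) (A : Matrix (Fin (vv n)) (Fin (vv n)) ℤ) : Prop :=
  IsSolution n A ∧ Even n ∧
  ∃ j₀ : Fin (vv n), ∃ S : Finset (Fin (vv n)), j₀ ∉ S ∧ S.card = n + 1 ∧
    (∃ i₀, A i₀ j₀ = 0 ∧ ∀ i, i ≠ i₀ → A i j₀ = 1) ∧
    (∀ j ∈ S, {i | A i j = 1}.ncard = n + 1 ∧ {i | A i j = 0}.ncard = n ^ 2) ∧
    ∀ j, j ≠ j₀ → j ∉ S → ∑ i, A i j = 0

theorem brc_of_arith {n : ℕ} (hn : Even n)
    (h : BRC n ∨ 4 ∣ n ∨ ∃ a b : ℤ, (n : ℤ) = a ^ 2 + b ^ 2) : BRC n := by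
  have hv : vv n - 1 = n ^ 2 + n := by unfold vv; omega
  obtain ⟨k, hk⟩ := hn
  rcases Nat.even_or_odd k with hev | hodd
  · obtain ⟨m, hm⟩ := hev
    have h1 : (n ^ 2 + n) / 2 = 2 * (4 * m ^ 2 + m) := by
      have h2 : n ^ 2 + n = 2 * (2 * (4 * m ^ 2 + m)) := by
        rw [hk, hm]
        ring
      rw [h2]
      simp
    refine ⟨1, 0, 1, Or.inl one_ne_zero, ?_⟩
    rw [hv, h1, Even.neg_one_pow ⟨4 * m ^ 2 + m, by ring⟩]
    ring
  · rcases h with h | h | h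
    · exact h
    · exfalso
      obtain ⟨m, hm⟩ := hodd
      omega
    · obtain ⟨a, b, hab⟩ := h
      have h1 : (n ^ 2 + n) / 2 = k * (2 * k + 1) := by
        have h2 : n ^ 2 + n = 2 * (k * (2 * k + 1)) := by
          rw [hk]
          ring
        rw [h2]
        simp
      have h3 : Odd (k * (2 * k + 1)) := hodd.mul ⟨k, by ring⟩
      refine ⟨a, 1, b, Or.inr (Or.inl one_ne_zero), ?_⟩
      rw [hv, h1, h3.neg_one_pow, hab]
      ring

/-- For every even `n ≥ 2` satisfying the Bruck-Ryser-Chowla condition (equivalently `4 ∣ n`, or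
`n` is a sum of two squares) there is an integral solution of `A Aᵀ = n I + J` of type (ii). -/
theorem result (n : ℕ) (hn : Even n) (hn2 : 2 ≤ n)
    (h : BRC n ∨ 4 ∣ n ∨ ∃ a b : ℤ, (n : ℤ) = a ^ 2 + b ^ 2) :
    ∃ A : Matrix (Fin (vv n)) (Fin (vv n)) ℤ, IsTypeTwo n A := by
  obtain ⟨x, y, z, h0, hxyz⟩ := brc_of_arith hn h
  have hv : vv n - 1 = n ^ 2 + n := by unfold vv; omega
  rw [hv] at hxyz
  obtain ⟨A, hA1, hA2, j₀, S, hj, hS, h01, hz, hSc, hrest⟩ :=
    Pool.Agent.S07321.result n hn hn2 ⟨x, y, z, by tauto, hxyz⟩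
  refine ⟨A, ⟨fun r s => ?_, hA1⟩, hn, j₀, S, hj, hS, ?_, ?_, hrest⟩
  · have h1 := congrFun (congrFun hA2 r) s
    rw [Matrix.mul_apply] at h1
    simp only [Matrix.transpose_apply, Matrix.add_apply, Matrix.smul_apply, Matrix.of_apply,
      Matrix.one_apply, smul_eq_mul, mul_ite, mul_one, mul_zero] at h1
    rw [h1]
    split_ifs <;> ring
  · obtain ⟨i₀, hi₀⟩ := Finset.card_eq_one.1 hz
    have h2 : ∀ i, A i j₀ = 0 ↔ i = i₀ := by
      intro i
      have h3 : i ∈ Finset.univ.filter (fun i => A i j₀ = 0) ↔ i ∈ ({i₀} : Finset _) := by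
        rw [hi₀]
      simpa using h3
    exact ⟨i₀, (h2 i₀).2 rfl, fun i hi => (h01 i).resolve_left fun h => hi ((h2 i).1 h)⟩
  · intro j hjS
    obtain ⟨h1, h2⟩ := hSc j hjS
    have e1 : {i | A i j = 1} = ((Finset.univ.filter (fun i => A i j = 1) : Finset _) : Set _) := by
      ext i
      simp
    have e0 : {i | A i j = 0} = ((Finset.univ.filter (fun i => A i j = 1))ᶜ : Finset (Fin (vv n))) := by
      ext i
      simp only [Set.mem_setOf_eq, Finset.coe_compl, Finset.coe_filter, Finset.mem_univ, true_and,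
        Set.mem_compl_iff]
      rcases h1 i with h | h <;> simp [h]
    refine ⟨by rw [e1, Set.ncard_coe_finset, h2], ?_⟩
    rw [e0, Set.ncard_coe_finset, Finset.card_compl, h2, Fintype.card_fin]
    unfold vv
    omega

end Pool.Agent.Results.MP_155e99_co.TypeTwoSolutions
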